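import Mathlib

/-
Statements of the steps of the project on unit values of `1 + c S` at torsion points.
-/

namespace Pool.Agent.MP_c1891a_nt.H79

open Finset Polynomial

/-- formal derivative of a power series over the rationals. -/
noncomputable def D (f : PowerSeries ℚ) : PowerSeries ℚ := PowerSeries.derivative ℚ f

/-- the `n`-th coefficient has denominator dividing `lcm (1, …, n)`. -/
def Den (f : PowerSeries ℚ) : Prop :=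
  ∀ n, ∃ m : ℤ, (Nat.lcmUpto n : ℚ) * PowerSeries.coeff n f = m

/-- geometric growth of the coefficients. -/
def Gro (f : PowerSeries ℚ) : Prop :=
  ∃ C : ℕ, ∀ n, |PowerSeries.coeff n f| ≤ (C : ℚ) ^ (n + 1)

/-- a linear differential equation with polynomial coefficients and polynomial right side. -/
def DF (f : PowerSeries ℚ) : Prop :=
  ∃ (ρ : ℕ) (a : ℕ → ℚ[X]) (π : ℚ[X]), a ρ ≠ 0 ∧
    ∑ i ∈ range (ρ + 1), (a i : PowerSeries ℚ) * D^[i] f = (π : PowerSeries ℚ)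

/-- integer coefficients. -/
def IntP (p : ℚ[X]) : Prop := ∀ n, ∃ m : ℤ, p.coeff n = m

/-- `f 0 = 1`, the `f i` are independent over the polynomials and `T f' = A f`. -/
def Sys {r : ℕ} (f : Fin (r + 1) → PowerSeries ℚ) (T : ℚ[X])
    (A : Fin (r + 1) → Fin (r + 1) → ℚ[X]) : Prop :=
  f 0 = 1 ∧
  (∀ ψ : Fin (r + 1) → ℚ[X], ∑ i, (ψ i : PowerSeries ℚ) * f i = 0 → ∀ i, ψ i = 0) ∧
  ∀ i, (T : PowerSeries ℚ) * D (f i) = ∑ j, (A i j : PowerSeries ℚ) * f j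

/-- the vectors `T ^ k (d/dz - A / T) ^ k P`. -/
noncomputable def RR {r : ℕ} (T : ℚ[X]) (A : Fin (r + 1) → Fin (r + 1) → ℚ[X])
    (P : Fin (r + 1) → ℚ[X]) : ℕ → Fin (r + 1) → ℚ[X]
  | 0 => P
  | k + 1 => fun i => T * derivative (RR T A P k i) - C (k : ℚ) * derivative T * RR T A P k i
      - ∑ j, A i j * RR T A P k j

/-- `P i` has degree at most `n` and agrees with `Q f i` up to order `n + e`. -/
def Pade {r : ℕ} (f : Fin (r + 1) → PowerSeries ℚ) (n e : ℕ) (Q : ℚ[X])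
    (P : Fin (r + 1) → ℚ[X]) : Prop :=
  Q ≠ 0 ∧ Q.natDegree ≤ n ∧ (∀ i, (P i).natDegree ≤ n) ∧
    ∀ i j, j ≤ n + e → PowerSeries.coeff j ((Q : PowerSeries ℚ) * f i - (P i : PowerSeries ℚ)) = 0

/-- a differential system spanned by the given series and their derivatives. -/
def SBas : Prop :=
  ∀ (ι : Type) [Fintype ι] (g : ι → PowerSeries ℚ), (∀ i, Den (g i) ∧ Gro (g i) ∧ DF (g i)) →
    ∃ (r : ℕ) (f : Fin (r + 1) → PowerSeries ℚ) (T T₀ : ℚ[X])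
      (A : Fin (r + 1) → Fin (r + 1) → ℚ[X]) (a : ι → Fin (r + 1) → ℚ[X]),
      Sys f T A ∧ T ≠ 0 ∧ T₀ ≠ 0 ∧ IntP T ∧ IntP T₀ ∧ (∀ j, Den (f j) ∧ Gro (f j)) ∧
      ∀ i, (T₀ : PowerSeries ℚ) * g i = ∑ j, (a i j : PowerSeries ℚ) * f j

/-- simultaneous approximants by Siegel's lemma. -/
def SPade : Prop :=
  ∀ (r : ℕ) (f : Fin (r + 1) → PowerSeries ℚ), f 0 = 1 → (∀ j, Den (f j) ∧ Gro (f j)) →
    ∀ K : ℕ, 2 ≤ K → ∃ C : ℕ, ∀ ν : ℕ, 1 ≤ ν → ∃ Q : ℚ[X], Q ≠ 0 ∧ IntP Q ∧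
      Q.natDegree ≤ r * K * ν ∧ (∀ n, |Q.coeff n| ≤ (C : ℚ) ^ ν) ∧
      ∀ i j, r * K * ν < j → j ≤ r * K * ν + (K - 1) * ν →
        PowerSeries.coeff j ((Q : PowerSeries ℚ) * f i) = 0

/-- formal solutions of a linear system at an ordinary point. -/
def SFund : Prop :=
  ∀ (n : ℕ) (T : PowerSeries ℚ) (B : Fin n → Fin n → PowerSeries ℚ),
    PowerSeries.constantCoeff T ≠ 0 → ∀ u : Fin n → ℚ, ∃ y : Fin n → PowerSeries ℚ,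
      (∀ i, PowerSeries.constantCoeff (y i) = u i) ∧ ∀ i, T * D (y i) = ∑ j, B i j * y j

/-- the determinant of the first derived vectors does not vanish. -/
def SNon : Prop :=
  ∀ (r : ℕ) (f : Fin (r + 1) → PowerSeries ℚ) (T : ℚ[X]) (A : Fin (r + 1) → Fin (r + 1) → ℚ[X]),
    Sys f T A → T ≠ 0 → ∃ C₀ : ℕ, ∀ (n e : ℕ) (Q : ℚ[X]) (P : Fin (r + 1) → ℚ[X]), C₀ ≤ e →
      Pade f n e Q P → (Matrix.of fun i k : Fin (r + 1) => RR T A P k i).det ≠ 0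

/-- zero estimate at an ordinary point. -/
def SZero : Prop :=
  ∀ (r : ℕ) (f : Fin (r + 1) → PowerSeries ℚ) (T : ℚ[X]) (A : Fin (r + 1) → Fin (r + 1) → ℚ[X]),
    Sys f T A → ∀ c : ℚ, c ≠ 0 → T.eval c ≠ 0 → ∃ C₀ : ℕ,
      ∀ (n e : ℕ) (Q : ℚ[X]) (P : Fin (r + 1) → ℚ[X]), C₀ ≤ e → Pade f n e Q P →
        ∀ φ : Fin (r + 1) → ℚ, φ ≠ 0 →
          ∃ k, k + r * e ≤ n + C₀ ∧ ∑ i, φ i * (RR T A P k i).eval c ≠ 0

/-- independence measure at a large integer point. -/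
def SG : Prop :=
  ∀ (ι : Type) [Fintype ι] (g : ι → PowerSeries ℚ) (i₀ : ι),
    (∀ i, Den (g i) ∧ Gro (g i) ∧ DF (g i)) → g i₀ ≠ 0 → ∃ c₀ : ℕ, ∀ c : ℤ, (c₀ : ℤ) ≤ |c| →
      ∃ κ : ℕ, ∀ b : ι → ℤ, b i₀ ≠ 0 → (∀ i, i ≠ i₀ → (κ : ℤ) * |b i| ≤ |b i₀|) →
        ∀ (T : ℕ) (V : PowerSeries ℚ), Den V →
          (∀ n < T, PowerSeries.coeff n (∑ i, PowerSeries.C (b i : ℚ) * g i) =
            PowerSeries.coeff n ((PowerSeries.X - PowerSeries.C (c : ℚ)) * V)) →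
          T ≤ κ * (Nat.log 2 (b i₀).natAbs + 1)

/-- the series of one coefficient of `log (1 + z S)`. -/
noncomputable def lg {G : Type} [AddCommGroup G] (S : AddMonoidAlgebra ℤ G) (γ : G) :
    PowerSeries ℚ :=
  PowerSeries.mk fun n => (-1) ^ (n + 1) * ((S ^ n).coeff γ : ℚ) / (n : ℚ)

/-- these series have small denominators, geometric growth and a differential equation. -/
def SDf : Prop :=
  ∀ (Γ : Type) [AddCommGroup Γ] [Finite Γ] (S : AddMonoidAlgebra ℤ (ℤ × ℤ × Γ)) (γ : Γ),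
    Den (lg S (0, 0, γ)) ∧ Gro (lg S (0, 0, γ)) ∧ DF (lg S (0, 0, γ))

/-- the logarithm of an integer polynomial taking the value `1` at `c`. -/
def SLog : Prop :=
  ∀ (ι : Type) (I : Finset ι) (u : ι → ℂ) (A : ℤ[X]) (c : ℤ), c ≠ 0 →
    A.map (Int.castRingHom ℂ) = ∏ i ∈ I, (1 + C (u i) * X) → A.eval c = 1 → ∀ T : ℕ,
      ∃ V : PowerSeries ℚ, Den V ∧ ∀ n < T,
        ((PowerSeries.coeff n ((PowerSeries.X - PowerSeries.C (c : ℚ)) * V) : ℚ) : ℂ) =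
          (-1) ^ (n + 1) * (∑ i ∈ I, u i ^ n) / (n : ℂ)

/-- algebraic units. -/
def IsU (u : ℂ) : Prop := u ≠ 0 ∧ IsIntegral ℤ u ∧ IsIntegral ℤ u⁻¹

/-- products over the primitive roots of unity have integer coefficients. -/
def SInt : Prop :=
  ∀ (M : ℕ), 0 < M → ∀ (ι : Type) (I : Finset ι) (s k : ι → ℤ) (e : ι → ℕ), ∃ f : ℤ[X],
    f.map (Int.castRingHom ℂ) =
      ∏ ω ∈ primitiveRoots M ℂ, ∑ i ∈ I, C ((s i : ℂ) * ω ^ k i) * X ^ e i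

/-- the product of the conjugates of a unit. -/
def SNorm : Prop :=
  ∀ (M : ℕ), 0 < M → ∀ (ι : Type) (I : Finset ι) (s k : ι → ℤ) (τ : ℂ), IsPrimitiveRoot τ M →
    IsU (∑ i ∈ I, (s i : ℂ) * τ ^ k i) →
    ∏ ω ∈ primitiveRoots M ℂ, ∑ i ∈ I, (s i : ℂ) * ω ^ k i = 1 ∨
      ∏ ω ∈ primitiveRoots M ℂ, ∑ i ∈ I, (s i : ℂ) * ω ^ k i = -1

/-- Ramanujan sums. -/
noncomputable def ram (N : ℕ) (k : ℤ) : ℂ := ∑ ω ∈ primitiveRoots N ℂ, ω ^ k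

/-- the basic facts on primitive roots and Ramanujan sums. -/
def SRam : Prop :=
  (∀ M N : ℕ, 0 < M → 0 < N → Nat.Coprime M N → ∀ F : ℂ → ℂ,
    ∏ ω ∈ primitiveRoots (M * N) ℂ, F ω =
      ∏ ω₁ ∈ primitiveRoots M ℂ, ∏ ω₂ ∈ primitiveRoots N ℂ, F (ω₁ * ω₂)) ∧
  (∀ M N : ℕ, 0 < M → 0 < N → Nat.Coprime M N → ∀ k, ram (M * N) k = ram M k * ram N k) ∧
  (∀ p i : ℕ, p.Prime → ∀ k : ℤ, ram (p ^ (i + 1)) k =
    (if (p : ℤ) ^ (i + 1) ∣ k then (p : ℂ) ^ (i + 1) else 0) -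
      if (p : ℤ) ^ i ∣ k then (p : ℂ) ^ i else 0) ∧
  ∀ a : ℕ, 0 < a → ∃ ρ : ZMod a → ℤ, 0 < ρ 0 ∧ (∀ x, |ρ x| ≤ a) ∧
    ∀ k : ℤ, ram a k = ρ (k : ZMod a)

/-- a crude Liouville inequality. -/
def SLiou : Prop :=
  ∀ (f G : ℤ[X]) (α : ℂ) (d E : ℕ) (H L : ℝ), f ≠ 0 → aeval α f = 0 → f.natDegree ≤ d →
    (∀ n, |(f.coeff n : ℝ)| ≤ H) → G.natDegree ≤ E →
    ∑ n ∈ range (E + 1), |(G.coeff n : ℝ)| ≤ L → aeval α G ≠ 0 →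
    1 ≤ ‖aeval α G‖ * (L * (2 * H ^ 2) ^ E) ^ d

/-- the interpolation matrix. -/
noncomputable def IM (α : ℂ) (N m : ℕ) {K L R S : ℕ} (f : Fin K × Fin L → Fin R × Fin S) :
    Matrix (Fin K × Fin L) (Fin K × Fin L) ℂ :=
  Matrix.of fun i j => ((((f j).1 : ℕ) * N + ((f j).2 : ℕ) * m : ℕ) : ℂ) ^ (i.1 : ℕ) *
    α ^ ((i.2 : ℕ) * ((f j).2 : ℕ))

/-- zero lemma. -/
def SZL : Prop :=
  ∀ (α : ℂ) (N m K L R W : ℕ), α ≠ 0 → (∀ n : ℕ, 0 < n → α ^ n ≠ 1) → Nat.Coprime m N →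
    W ≤ N → (K - 1) * L < R * W →
    ∃ f : Fin K × Fin L → Fin R × Fin (L + W), (IM α N m f).det ≠ 0

/-- analytic upper bound for the interpolation determinant. -/
def SUp : Prop :=
  ∀ (α : ℂ) (N m K L R S : ℕ) (f : Fin K × Fin L → Fin R × Fin S) (η : ℝ), 0 < N → m ≤ N →
    ‖α - Complex.exp (2 * Real.pi * Complex.I * m / N)‖ ≤ η →
    Real.exp (K * L) * (2 * L * S * η) ≤ 1 →
    Real.exp ((K * L : ℝ) * (K * L - 1) / 2) * ‖(IM α N m f).det‖ ≤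
      (K * L).factorial *
        (2 * (3 * N * (R + S) : ℝ) ^ K * Real.exp (20 * L * (R + S))) ^ (K * L)

/-- an algebraic number of small degree is not too close to a root of unity. -/
def STL : Prop :=
  ∃ Y₀ : ℕ, ∀ Y : ℕ, Y₀ ≤ Y → ∀ (f : ℤ[X]) (α ω : ℂ) (N : ℕ), f ≠ 0 → f.natDegree ≤ Y →
    (∀ n, |f.coeff n| ≤ 2 ^ Y) → aeval α f = 0 → (∀ n : ℕ, 0 < n → α ^ n ≠ 1) → 0 < N →
    N ≤ 2 ^ Y → ω ^ N = 1 → Real.exp (-(Y : ℝ) ^ 14) ≤ ‖α - ω‖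

/-- lower bound for the product of the values at the primitive roots of prime power order. -/
def SProd : Prop :=
  ∃ Y₀ : ℕ, ∀ Y : ℕ, Y₀ ≤ Y → ∀ (f : ℤ[X]) (Q : ℕ), f ≠ 0 → f.natDegree ≤ Y →
    (∀ n, |f.coeff n| ≤ 2 ^ Y) →
    (∀ α : ℂ, aeval α f = 0 → ∀ n : ℕ, 0 < n → α ^ n ≠ 1) → IsPrimePow Q → Q ≤ 2 ^ Y →
    |(f.leadingCoeff : ℝ)| ^ Q.totient * Real.exp (-(Y : ℝ) ^ 16) ≤
      ∏ σ ∈ primitiveRoots Q ℂ, ‖aeval σ f‖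

/-- the value of a Laurent polynomial. -/
noncomputable def ev (S : AddMonoidAlgebra ℤ (ℤ × ℤ)) (x y : ℂ) : ℂ :=
  ∑ μ ∈ S.coeff.support, (S.coeff μ : ℂ) * x ^ μ.1 * y ^ μ.2

/-- the archimedean step. -/
def STA : Prop :=
  ∀ (S : AddMonoidAlgebra ℤ (ℤ × ℤ)) (c : ℤ), 2 ≤ |c| → ∃ Y₀ C : ℕ,
    ∀ (M Q : ℕ) (τ : ℂ) (α β t u v : ℤ) (Y : ℕ), 0 < M → IsPrimePow Q → Nat.Coprime M Q →
      IsPrimitiveRoot τ (M * Q) → IsCoprime t (Q : ℤ) → (Q : ℤ) ∣ α - t * u →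
      (Q : ℤ) ∣ β - t * v → IsU (1 + c * ev S (τ ^ α) (τ ^ β)) →
      (∃ e : ℤ, 0 < e ∧ (∀ μ ∈ S.coeff.support, u * μ.1 + v * μ.2 ≤ e) ∧
        ∀ ω : ℂ, IsPrimitiveRoot ω M →
          ∑ μ ∈ S.coeff.support with u * μ.1 + v * μ.2 = e,
            (S.coeff μ : ℂ) * ω ^ (α * μ.1 + β * μ.2) ≠ 0) →
      Y₀ ≤ Y → C * M * (u.natAbs + v.natAbs) ≤ Y → Q ≤ 2 ^ Y → Q ≤ Y ^ 17

/-- the arithmetic step. -/
def STB : Prop :=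
  ∀ S : AddMonoidAlgebra ℤ (ℤ × ℤ), (∃ n, 0 < n ∧ (S ^ n).coeff 0 ≠ 0) → ∀ a : ℕ, 0 < a →
    ∃ c₀ : ℕ, ∀ c : ℤ, (c₀ : ℤ) ≤ |c| → ∃ κ : ℕ,
      ∀ (N : ℕ) (τ : ℂ) (α β b : ℤ) (w : Fin 3 → ZMod a × ZMod a → ℤ) (T : ℕ), 0 < N →
        IsPrimitiveRoot τ N → IsU (1 + c * ev S (τ ^ α) (τ ^ β)) → b ≠ 0 →
        (∀ i γ, (κ : ℤ) * |w i γ| ≤ |b|) →
        (∀ l : ℤ × ℤ, |l.1| ≤ T → |l.2| ≤ T → ram N (α * l.1 + β * l.2) =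
          (((if l = 0 then b else 0) + (if l.1 = 0 then w 0 (l.1, l.2) else 0) +
            (if l.2 = 0 then w 1 (l.1, l.2) else 0) + w 2 (l.1, l.2) : ℤ) : ℂ)) →
        T ≤ κ * (Nat.log 2 b.natAbs + 1)

end Pool.Agent.MP_c1891a_nt.H79
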