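import Pool.Agent.MP_c1891a_nt.H33.G
import Pool.Agent.MP_c1891a_nt.H5.Df
import Pool.Agent.MP_c1891a_nt.H9.Non
import Pool.Agent.MP_c1891a_nt.H14.TL
import Pool.Agent.MP_c1891a_nt.H70.TB
import Pool.Agent.MP_c1891a_nt.H60.TA
import Pool.Agent.MP_c1891a_nt.H41.ZU
import Pool.Agent.MP_c1891a_nt.H21.Zero
import Pool.Agent.MP_c1891a_nt.H69.Cyc
import Pool.Agent.MP_c1891a_nt.H62.Bas
import Pool.Agent.MP_c1891a_nt.H76.Pade
import Pool.Agent.MP_c1891a_nt.H88.Prod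
import Pool.Agent.MP_c1891a_nt.H3.Log
import Pool.Agent.MP_c1891a_nt.H44.Liou

/-
The steps of the project, with all hypotheses discharged.
-/

namespace Pool.Agent.MP_c1891a_nt.H79

theorem allG : SG := H33.sg H62.bas H76.pade (H21.zero H9.fund (H9.non H9.fund))

theorem allTL : STL := H14.stl H44.liou H41ZU.szl H41ZU.sup

theorem allA : STA := H60.sta H69.sint H69.snorm H69.sram (H88.sprod allTL)

theorem allB : STB := H70.stb allG H5.df H3.slog H69.sint H69.snorm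

theorem allR : SRam := H69.sram

/-- transfer from the algebraic closure of the rationals to the complex numbers. -/
theorem transfer (S : AddMonoidAlgebra ℤ (ℤ × ℤ)) (c : ℤ) (x y u : AlgebraicClosure ℚ)
    (hu : u = 1 + c * ∑ μ ∈ S.coeff.support,
      (S.coeff μ : AlgebraicClosure ℚ) * x ^ μ.1 * y ^ μ.2)
    (h : u ≠ 0 ∧ IsIntegral ℤ u ∧ IsIntegral ℤ u⁻¹) :
    ∃ φ : AlgebraicClosure ℚ →+* ℂ, IsU (1 + c * ev S (φ x) (φ y)) := by
  have : Algebra.IsAlgebraic ℚ (AlgebraicClosure ℚ) := AlgebraicClosure.isAlgebraic ℚ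
  let φ : AlgebraicClosure ℚ →ₐ[ℚ] ℂ := IsAlgClosed.lift
  refine ⟨φ.toRingHom, ?_⟩
  have e : 1 + c * ev S (φ.toRingHom x) (φ.toRingHom y) = φ.toRingHom u := by
    simp [hu, ev, map_sum, map_zpow₀]
  rw [e]
  refine ⟨(map_ne_zero _).2 h.1, h.2.1.map φ.toRingHom.toIntAlgHom, ?_⟩
  rw [← map_inv₀]
  exact h.2.2.map φ.toRingHom.toIntAlgHom

end Pool.Agent.MP_c1891a_nt.H79
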