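import Pool.Agent.MP_c1891a_nt.H79.Spec

/-
Elementary lemmas for the case analysis.
-/

namespace Pool.Agent.MP_c1891a_nt.H79

open Finset Polynomial

theorem grow (C k : ℕ) : ∃ n₀ : ℕ, ∀ n, n₀ ≤ n → (C * (Nat.log 2 n + 1)) ^ k < n := by
  have h := (tendsto_pow_const_div_const_pow_of_one_lt k (r := (2 : ℝ)) (by norm_num))
  have hpos : (0 : ℝ) < 1 / (2 * ((C : ℝ) + 1) ^ k) := by positivity
  obtain ⟨L₀, hL₀⟩ := Filter.eventually_atTop.1 (h.eventually (gt_mem_nhds hpos))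
  refine ⟨2 ^ L₀, fun n hn => ?_⟩
  have hn0 : n ≠ 0 := by have := Nat.two_pow_pos L₀; omega
  have hL : L₀ ≤ Nat.log 2 n := Nat.le_log_of_pow_le (by norm_num) hn
  have h1 := hL₀ (Nat.log 2 n + 1) (by omega)
  have h2 : 2 ^ Nat.log 2 n ≤ n := Nat.pow_log_le_self 2 hn0
  set L := Nat.log 2 n
  rw [div_lt_div_iff₀ (by positivity) (by positivity)] at h1
  have h3 : ((C : ℝ) * ((L : ℝ) + 1)) ^ k < 2 ^ L := by
    have h4 : ((C : ℝ) * ((L : ℝ) + 1)) ^ k ≤ ((C + 1 : ℝ) * ((L : ℝ) + 1)) ^ k := by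
      gcongr; linarith
    rw [mul_pow ((C : ℝ) + 1)] at h4
    push_cast at h1
    rw [pow_succ (2 : ℝ) L] at h1
    nlinarith
  have h5 : (C * (L + 1)) ^ k < 2 ^ L := by exact_mod_cast h3
  omega

theorem box (S : AddMonoidAlgebra ℤ (ℤ × ℤ)) :
    ∃ R : ℕ, ∀ μ ∈ S.coeff.support, |μ.1| ≤ R ∧ |μ.2| ≤ R := by
  refine ⟨S.coeff.support.sup fun μ => max μ.1.natAbs μ.2.natAbs, fun μ hμ => ?_⟩
  have := Finset.le_sup (f := fun μ : ℤ × ℤ => max μ.1.natAbs μ.2.natAbs) hμ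
  simp only [max_le_iff] at this
  rw [Int.abs_eq_natAbs, Int.abs_eq_natAbs]
  exact ⟨by exact_mod_cast this.1, by exact_mod_cast this.2⟩

theorem pp_le {P : ℕ} (hP : IsPrimePow P) : P ≤ 2 * P.totient := by
  obtain ⟨p, k, hp, hk, rfl⟩ := (isPrimePow_nat_iff _).1 hP
  obtain ⟨k, rfl⟩ : ∃ j, k = j + 1 := ⟨k - 1, by omega⟩
  rw [Nat.totient_prime_pow_succ hp, pow_succ]
  have := hp.two_le
  have h2 : p ≤ 2 * (p - 1) := by omega
  nlinarith [Nat.zero_le (p ^ k)]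

/-- a short integer combination of powers of a root of unity of large degree is not zero. -/
theorem small {ι : Type} (I : Finset ι) (s e : ι → ℤ) (R d : ℕ) (ρ : ℂ) (hd : 0 < d)
    (hρ : IsPrimitiveRoot ρ d) (hR : 2 * R < d.totient) (he : ∀ i ∈ I, |e i| ≤ R)
    (hinj : ∀ i ∈ I, ∀ j ∈ I, e i = e j → i = j) (i₀ : ι) (hi₀ : i₀ ∈ I) (hs : s i₀ ≠ 0) :
    ∑ i ∈ I, (s i : ℂ) * ρ ^ e i ≠ 0 := by
  classical
  intro h0
  have hρ0 : ρ ≠ 0 := hρ.ne_zero hd.ne'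
  let g : ℚ[X] := ∑ i ∈ I, C (s i : ℚ) * X ^ (e i + R).toNat
  have hg0 : g ≠ 0 := by
    intro hg
    have h1 : g.coeff (e i₀ + R).toNat = s i₀ := by
      simp only [g, finsetSum_coeff, coeff_C_mul, coeff_X_pow]
      rw [Finset.sum_eq_single i₀]
      · simp
      · intro j hj hne
        rw [if_neg, mul_zero]
        intro h
        apply hne
        apply hinj j hj i₀ hi₀
        have := abs_le.1 (he j hj)
        have := abs_le.1 (he i₀ hi₀)
        omega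
      · intro h; exact absurd hi₀ h
    rw [hg] at h1
    simp at h1
    exact hs (by exact_mod_cast h1.symm)
  have hdeg : g.natDegree ≤ 2 * R := by
    refine natDegree_sum_le_of_forall_le _ _ fun i hi => (natDegree_C_mul_X_pow_le _ _).trans ?_
    have := abs_le.1 (he i hi)
    omega
  have hev : aeval ρ g = 0 := by
    have : aeval ρ g = (∑ i ∈ I, (s i : ℂ) * ρ ^ e i) * ρ ^ (R : ℤ) := by
      simp only [g, map_sum, map_mul, aeval_C, map_pow, aeval_X, Finset.sum_mul]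
      refine Finset.sum_congr rfl fun i hi => ?_
      have := abs_le.1 (he i hi)
      rw [mul_assoc, ← zpow_add₀ hρ0, ← zpow_natCast, Int.toNat_of_nonneg (by omega)]
      simp
    rw [this, h0, zero_mul]
  have h1 := minpoly.degree_le_of_ne_zero ℚ ρ hg0 hev
  rw [← cyclotomic_eq_minpoly_rat hρ hd, degree_cyclotomic, degree_eq_natDegree hg0] at h1
  have h2 : d.totient ≤ g.natDegree := by exact_mod_cast h1
  omega

/-- the Ramanujan sum of a prime power on short vectors. -/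
theorem ram_pp (h : SRam) {P : ℕ} (hP : IsPrimePow P) :
    ∃ B ε : ℤ, (P : ℤ) ≤ 2 * B ∧ B ≤ P ∧ |ε| ≤ 1 ∧ ∀ (T : ℕ) (α k l : ℤ), T * T < P →
      IsCoprime α (P : ℤ) → |l| ≤ T → (P : ℤ) ∣ k - α * l →
      ram P k = (((if l = 0 then B else 0) + ε : ℤ) : ℂ) := by
  obtain ⟨p, i, hp, hi, rfl⟩ := (isPrimePow_nat_iff _).1 hP
  obtain ⟨i, rfl⟩ : ∃ j, i = j + 1 := ⟨i - 1, by omega⟩
  have hp2 : (2 : ℤ) ≤ p := by exact_mod_cast hp.two_le
  have key : ∀ (T : ℕ) (α k l : ℤ) (j : ℕ), j ≤ i + 1 → T < p ^ j →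
      IsCoprime α ((p ^ (i + 1) : ℕ) : ℤ) → |l| ≤ T → ((p ^ (i + 1) : ℕ) : ℤ) ∣ k - α * l →
      ((p : ℤ) ^ j ∣ k ↔ l = 0) := by
    intro T α k l j hj hT hc hl hd
    push_cast at hc hd
    have h1 : (p : ℤ) ^ j ∣ (p : ℤ) ^ (i + 1) := pow_dvd_pow _ hj
    have h2 := h1.trans hd
    constructor
    · intro hk
      have h3 : (p : ℤ) ^ j ∣ α * l := by
        have := dvd_sub hk h2
        simpa using this
      have h4 : (p : ℤ) ^ j ∣ l := (hc.symm.of_isCoprime_of_dvd_left h1).dvd_of_dvd_mul_left h3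
      refine Int.eq_zero_of_abs_lt_dvd h4 (hl.trans_lt ?_)
      exact_mod_cast hT
    · rintro rfl
      simpa using h2
  rcases Nat.eq_zero_or_pos i with rfl | hi0
  · refine ⟨p, -1, by push_cast; nlinarith, by simp, by simp, fun T α k l hT hc hl hd => ?_⟩
    have hT' : T < p ^ (0 + 1) := lt_of_le_of_lt (Nat.le_mul_self T) hT
    rw [h.2.2.1 p 0 hp k]
    simp only [key T α k l (0 + 1) le_rfl hT' hc hl hd]
    split_ifs <;> simp_all [sub_eq_add_neg]
  · have hpi : (0 : ℤ) < (p : ℤ) ^ i := by positivity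
    refine ⟨(p : ℤ) ^ (i + 1) - (p : ℤ) ^ i, 0, ?_, ?_, by simp, fun T α k l hT hc hl hd => ?_⟩
    · push_cast; rw [pow_succ]; nlinarith
    · push_cast; linarith
    have hT1 : T < p ^ (i + 1) := lt_of_le_of_lt (Nat.le_mul_self T) hT
    have hT2 : T < p ^ i := by
      by_contra hc'
      push Not at hc'
      have h1 : p ^ (i + 1) ≤ p ^ (i + i) := Nat.pow_le_pow_right hp.pos (by omega)
      rw [pow_add p i i] at h1
      have := Nat.mul_le_mul hc' hc'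
      omega
    rw [h.2.2.1 p i hp k]
    simp only [key T α k l (i + 1) le_rfl hT1 hc hl hd, key T α k l i (by omega) hT2 hc hl hd]
    split_ifs <;> simp

/-- exchange of the two variables. -/
noncomputable def sw (S : AddMonoidAlgebra ℤ (ℤ × ℤ)) : AddMonoidAlgebra ℤ (ℤ × ℤ) :=
  AddMonoidAlgebra.ofCoeff (S.coeff.equivMapDomain (Equiv.prodComm ℤ ℤ))

theorem sw_coeff (S : AddMonoidAlgebra ℤ (ℤ × ℤ)) (μ : ℤ × ℤ) :
    (sw S).coeff μ = S.coeff μ.swap := rfl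

theorem ev_sw (S : AddMonoidAlgebra ℤ (ℤ × ℤ)) (x y : ℂ) : ev (sw S) y x = ev S x y := by
  unfold ev
  refine Finset.sum_equiv (Equiv.prodComm ℤ ℤ) (fun μ => ?_) fun μ _ => ?_
  · simp [sw_coeff]
  · simp only [sw_coeff, Equiv.prodComm_apply, Prod.fst_swap, Prod.snd_swap]; ring

end Pool.Agent.MP_c1891a_nt.H79
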