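import Pool.Agent.MP_c1891a_nt.H79.Elem

/-
Torsion points of order dividing `a p`.
-/

namespace Pool.Agent.MP_c1891a_nt.H79

open Finset Polynomial

/-- a multiplicative relation of size at most `B`. -/
def Rel (B : ℕ) (x y : ℂ) : Prop :=
  ∃ m n : ℤ, (m ≠ 0 ∨ n ≠ 0) ∧ |m| ≤ B ∧ |n| ≤ B ∧ x ^ m * y ^ n = 1

theorem rel_left {B n : ℕ} {x : ℂ} (y : ℂ) (hn : 0 < n) (hB : n ≤ B) (hx : x ^ n = 1) :
    Rel B x y :=
  ⟨n, 0, Or.inl (by exact_mod_cast hn.ne'), by simpa using hB, by simp, by simpa using hx⟩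

theorem rel_swap {B : ℕ} {x y : ℂ} (h : Rel B x y) : Rel B y x := by
  obtain ⟨m, n, h1, h2, h3, h4⟩ := h
  exact ⟨n, m, h1.symm, h3, h2, by rw [mul_comm]; exact h4⟩

theorem ta_inj (hA : STA) (S : AddMonoidAlgebra ℤ (ℤ × ℤ)) (c : ℤ) (hc : 2 ≤ |c|) :
    ∃ Y₀ C : ℕ, ∀ (M Q : ℕ) (τ : ℂ) (α β t u v : ℤ) (Y : ℕ), 0 < M → IsPrimePow Q →
      Nat.Coprime M Q → IsPrimitiveRoot τ (M * Q) → IsCoprime t (Q : ℤ) → (Q : ℤ) ∣ α - t * u →
      (Q : ℤ) ∣ β - t * v → IsU (1 + c * ev S (τ ^ α) (τ ^ β)) →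
      (∀ μ ∈ S.coeff.support, ∀ ν ∈ S.coeff.support,
        u * μ.1 + v * μ.2 = u * ν.1 + v * ν.2 → μ = ν) →
      (∃ μ ∈ S.coeff.support, u * μ.1 + v * μ.2 ≠ 0) →
      Y₀ ≤ Y → C * M * (u.natAbs + v.natAbs) ≤ Y → Q ≤ 2 ^ Y → Q ≤ Y ^ 17 := by
  obtain ⟨Y₀, C, h⟩ := hA S c hc
  have key : ∀ (M Q : ℕ) (τ : ℂ) (α β t u v : ℤ) (Y : ℕ), 0 < M → IsPrimePow Q →
      Nat.Coprime M Q → IsPrimitiveRoot τ (M * Q) → IsCoprime t (Q : ℤ) → (Q : ℤ) ∣ α - t * u →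
      (Q : ℤ) ∣ β - t * v → IsU (1 + c * ev S (τ ^ α) (τ ^ β)) →
      (∀ μ ∈ S.coeff.support, ∀ ν ∈ S.coeff.support,
        u * μ.1 + v * μ.2 = u * ν.1 + v * ν.2 → μ = ν) →
      (∃ μ ∈ S.coeff.support, 0 < u * μ.1 + v * μ.2) →
      Y₀ ≤ Y → C * M * (u.natAbs + v.natAbs) ≤ Y → Q ≤ 2 ^ Y → Q ≤ Y ^ 17 := by
    intro M Q τ α β t u v Y hM hQ hco hτ ht h1 h2 hU hinj ⟨μ₀, hμ₀, hpos⟩
    refine h M Q τ α β t u v Y hM hQ hco hτ ht h1 h2 hU ?_
    obtain ⟨μ, hμ, hmax⟩ := Finset.exists_max_image S.coeff.support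
      (fun μ : ℤ × ℤ => u * μ.1 + v * μ.2) ⟨μ₀, hμ₀⟩
    refine ⟨u * μ.1 + v * μ.2, hpos.trans_le (hmax μ₀ hμ₀), hmax, fun ω hω => ?_⟩
    rw [Finset.sum_eq_single_of_mem μ (by simp [hμ, Finsupp.mem_support_iff.1 hμ])]
    · exact mul_ne_zero (by exact_mod_cast Finsupp.mem_support_iff.1 hμ)
        (zpow_ne_zero _ (hω.ne_zero hM.ne'))
    · intro ν hν hne
      rw [Finset.mem_filter] at hν
      exact absurd (hinj ν hν.1 μ hμ hν.2) hne
  refine ⟨Y₀, C, ?_⟩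
  intro M Q τ α β t u v Y hM hQ hco hτ ht h1 h2 hU hinj ⟨μ₀, hμ₀, hne⟩ hY hC hQY
  rcases lt_or_gt_of_ne hne with hlt | hgt
  · refine key M Q τ α β (-t) (-u) (-v) Y hM hQ hco hτ ht.neg_left (by simpa using h1)
      (by simpa using h2) hU (fun μ hμ ν hν h => hinj μ hμ ν hν (by linarith))
      ⟨μ₀, hμ₀, by linarith⟩ hY (by simpa using hC) hQY
  · exact key M Q τ α β t u v Y hM hQ hco hτ ht h1 h2 hU hinj ⟨μ₀, hμ₀, hgt⟩ hY hC hQY

theorem exp_prim {N : ℕ} (hN : 0 < N) {x y : ℂ} (hx : x ^ N = 1) (hy : y ^ N = 1) :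
    ∃ (τ : ℂ) (α β : ℤ), IsPrimitiveRoot τ N ∧ x = τ ^ α ∧ y = τ ^ β := by
  have : NeZero N := ⟨hN.ne'⟩
  have hτ := Complex.isPrimitiveRoot_exp N hN.ne'
  obtain ⟨α, -, h1⟩ := hτ.eq_pow_of_pow_eq_one hx
  obtain ⟨β, -, h2⟩ := hτ.eq_pow_of_pow_eq_one hy
  exact ⟨_, α, β, hτ, by rw [zpow_natCast, h1], by rw [zpow_natCast, h2]⟩

theorem prim_inj {l₁ l₂ g₁ g₂ d₁ d₂ : ℤ} {R : ℕ} (hg : g₁ * l₁ + g₂ * l₂ = 1)
    (hl : 2 * (R : ℤ) < |l₁| ∨ 2 * (R : ℤ) < |l₂|) (h₁ : |d₁| ≤ 2 * R) (h₂ : |d₂| ≤ 2 * R)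
    (h : -l₂ * d₁ + l₁ * d₂ = 0) : d₁ = 0 ∧ d₂ = 0 := by
  have e₁ : d₁ = (g₁ * d₁ + g₂ * d₂) * l₁ := by linear_combination (-d₁) * hg - g₂ * h
  have e₂ : d₂ = (g₁ * d₁ + g₂ * d₂) * l₂ := by linear_combination (-d₂) * hg + g₁ * h
  set s := g₁ * d₁ + g₂ * d₂
  by_cases hs : s = 0
  · rw [hs, zero_mul] at e₁ e₂; exact ⟨e₁, e₂⟩
  · exfalso
    have hs1 : 1 ≤ |s| := Int.one_le_abs hs
    rcases hl with hl | hl
    · rw [e₁, abs_mul] at h₁; nlinarith [abs_nonneg l₁]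
    · rw [e₂, abs_mul] at h₂; nlinarith [abs_nonneg l₂]

theorem mainI (hA : STA) (hB : STB) (hR : SRam) (S : AddMonoidAlgebra ℤ (ℤ × ℤ))
    (hS : ∃ μ, μ ≠ 0 ∧ S.coeff μ ≠ 0) (hCT : ∃ n, 0 < n ∧ (S ^ n).coeff 0 ≠ 0) (a : ℕ)
    (ha : 0 < a) : ∃ c₀ : ℕ, ∀ c : ℤ, (c₀ : ℤ) ≤ |c| → ∃ B : ℕ, ∀ p : ℕ, p.Prime →
      ∀ x y : ℂ, x ^ (a * p) = 1 → y ^ (a * p) = 1 → IsU (1 + c * ev S x y) → Rel B x y := by
  obtain ⟨c₀, hc₀⟩ := hB S hCT a ha
  refine ⟨c₀ + 2, fun c hc => ?_⟩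
  push_cast at hc
  obtain ⟨κ, hκ⟩ := hc₀ c (by linarith)
  obtain ⟨Y₀, C, hY⟩ := ta_inj hA S c (by linarith [Int.natCast_nonneg c₀])
  obtain ⟨R, hbox⟩ := box S
  obtain ⟨n₀, hn₀⟩ := grow (a * (Y₀ + 2 * C * a * (κ + 1) + κ + 1)) 17
  obtain ⟨ρ, hρ0, hρ1, hρ⟩ := hR.2.2.2 a ha
  refine ⟨n₀ + a * (2 * R) + a * (a * (κ + 1)), fun p hp x y hx hy hU => ?_⟩
  by_contra hno
  have hN : 0 < a * p := Nat.mul_pos ha hp.pos
  have hbig : n₀ + a * (2 * R) + a * (a * (κ + 1)) < a * p := by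
    by_contra h
    exact hno (rel_left y hN (by omega) hx)
  have hap : a * (κ + 1) < p := by
    by_contra h
    have := Nat.mul_le_mul_left a (not_lt.1 h)
    omega
  have hap' : a < p := by nlinarith
  have hco : Nat.Coprime a p := (Nat.coprime_of_lt_prime ha.ne' hap' hp).symm
  obtain ⟨τ, α, β, hτ, rfl, rfl⟩ := exp_prim hN hx hy
  have hτ0 : τ ≠ 0 := hτ.ne_zero hN.ne'
  set Λ := Nat.log 2 (a * p) + 1 with hΛ
  have hΛ2 : a * p < 2 ^ Λ := Nat.lt_pow_succ_log_self (by norm_num) _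
  set b : ℤ := p * ρ 0 with hb
  have hb0 : 0 < b := mul_pos (by exact_mod_cast hp.pos) hρ0
  have hb1 : b.natAbs ≤ a * p := by
    have h1 := (le_abs_self _).trans (hρ1 0)
    have : b ≤ (a * p : ℕ) := by push_cast; rw [hb]; nlinarith [Int.natCast_nonneg p]
    omega
  set T := κ * (Nat.log 2 b.natAbs + 1) + 1 with hT
  have hTΛ : T ≤ (κ + 1) * Λ := by
    have h1 : Nat.log 2 b.natAbs ≤ Nat.log 2 (a * p) := Nat.log_mono_right hb1
    have h2 : κ * (Nat.log 2 b.natAbs + 1) ≤ κ * Λ := Nat.mul_le_mul_left _ (by omega)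
    nlinarith
  set Y := (Y₀ + 2 * C * a * (κ + 1) + κ + 1) * Λ with hYdef
  have hΛ1 : 1 ≤ Λ := by omega
  have hTY : T ≤ Y := hTΛ.trans (Nat.mul_le_mul_right _ (by omega))
  have hY1 : 1 ≤ Y := by omega
  have hn₀' : n₀ ≤ a * p := by omega
  have hYp : ¬ p ≤ Y ^ 17 := by
    intro h
    have haY := hn₀ (a * p) hn₀'
    rw [mul_assoc, mul_pow] at haY
    exact absurd (Nat.mul_le_mul (Nat.le_self_pow (by norm_num) a) h) (not_le.2 haY)
  have hTp : T < p :=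
    lt_of_le_of_lt (hTY.trans (Nat.le_self_pow (by norm_num) Y)) (not_le.1 hYp)
  replace hYp : p ≤ Y ^ 17 → False := hYp
  by_cases hex : ∃ l : ℤ × ℤ, l ≠ 0 ∧ |l.1| ≤ T ∧ |l.2| ≤ T ∧ (p : ℤ) ∣ α * l.1 + β * l.2
  · obtain ⟨⟨m, n⟩, hl0, hm, hn, hd⟩ := hex
    simp only at hm hn hd
    have hg0 : 0 < Int.gcd m n := by
      rw [Int.gcd_pos_iff]
      by_contra h
      push Not at h
      exact hl0 (Prod.ext h.1 h.2)
    obtain ⟨l₁, l₂, hgcd, e₁, e₂⟩ := Int.exists_gcd_one hg0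
    set g : ℤ := (Int.gcd m n : ℤ) with hgdef
    have hg1 : 1 ≤ g := by rw [hgdef]; exact_mod_cast hg0
    obtain ⟨g₁, g₂, hbez⟩ := Int.isCoprime_iff_gcd_eq_one.2 hgcd
    have hl₁ : |l₁| * g ≤ T := by rw [e₁, abs_mul, abs_of_pos (by omega : 0 < g)] at hm; exact hm
    have hl₂ : |l₂| * g ≤ T := by rw [e₂, abs_mul, abs_of_pos (by omega : 0 < g)] at hn; exact hn
    have hl0' : l₁ ≠ 0 ∨ l₂ ≠ 0 := by
      by_contra h
      push Not at h
      rw [h.1, h.2] at hbez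
      simp at hbez
    have hgT : g ≤ T := by
      rcases hl0' with h | h
      · nlinarith [Int.one_le_abs h]
      · nlinarith [Int.one_le_abs h]
    have hpi : Prime (p : ℤ) := Nat.prime_iff_prime_int.1 hp
    have hd' : (p : ℤ) ∣ α * l₁ + β * l₂ := by
      have h1 : α * m + β * n = (α * l₁ + β * l₂) * g := by rw [e₁, e₂]; ring
      rw [h1] at hd
      rcases hpi.dvd_or_dvd hd with h | h
      · exact h
      · have := Int.le_of_dvd (by omega) h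
        omega
    have hlarge : 2 * (R : ℤ) < |l₁| ∨ 2 * (R : ℤ) < |l₂| := by
      by_contra h
      push Not at h
      have ha' : (0 : ℤ) < a := by exact_mod_cast ha
      refine hno ⟨a * l₁, a * l₂, ?_, ?_, ?_, ?_⟩
      · rcases hl0' with h | h
        · exact Or.inl (mul_ne_zero ha'.ne' h)
        · exact Or.inr (mul_ne_zero ha'.ne' h)
      · rw [abs_mul, abs_of_pos ha']; push_cast
        have := mul_le_mul_of_nonneg_left h.1 ha'.le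
        have : (0 : ℤ) ≤ n₀ + a * (a * (κ + 1)) := by positivity
        linarith
      · rw [abs_mul, abs_of_pos ha']; push_cast
        have := mul_le_mul_of_nonneg_left h.2 ha'.le
        have : (0 : ℤ) ≤ n₀ + a * (a * (κ + 1)) := by positivity
        linarith
      · rw [← zpow_mul, ← zpow_mul, ← zpow_add₀ hτ0, hτ.zpow_eq_one_iff_dvd]
        obtain ⟨z, hz⟩ := hd'
        exact ⟨z, by push_cast; linear_combination (a : ℤ) * hz⟩
    have h1 : (p : ℤ) ∣ α - (β * g₁ - α * g₂) * (-l₂) := by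
      obtain ⟨z, hz⟩ := hd'
      exact ⟨g₁ * z, by linear_combination g₁ * hz - α * hbez⟩
    have h2 : (p : ℤ) ∣ β - (β * g₁ - α * g₂) * l₁ := by
      obtain ⟨z, hz⟩ := hd'
      exact ⟨g₂ * z, by linear_combination g₂ * hz - β * hbez⟩
    have ht : IsCoprime (β * g₁ - α * g₂) (p : ℤ) := by
      refine (hpi.irreducible.coprime_iff_not_dvd.2 fun h => ?_).symm
      have h3 : (p : ℤ) ∣ α := by simpa using dvd_add h1 (h.mul_right (-l₂))
      have h4 : a ≤ a * (a * (κ + 1)) := Nat.le_mul_of_pos_right _ (by positivity)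
      refine hno (rel_left _ ha (h4.trans (Nat.le_add_left _ _)) ?_)
      rw [← zpow_natCast, ← zpow_mul, hτ.zpow_eq_one_iff_dvd]
      obtain ⟨z, hz⟩ := h3
      exact ⟨z, by push_cast; linear_combination (a : ℤ) * hz⟩
    refine hYp (hY a p τ α β _ (-l₂) l₁ Y ha hp.isPrimePow hco hτ ht h1 h2 hU ?_ ?_ ?_ ?_ ?_) <;>
      clear hYp
    · intro μ hμ ν hν h
      have b₁ := abs_le.1 (hbox μ hμ).1
      have b₂ := abs_le.1 (hbox μ hμ).2
      have b₃ := abs_le.1 (hbox ν hν).1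
      have b₄ := abs_le.1 (hbox ν hν).2
      have := prim_inj (d₁ := μ.1 - ν.1) (d₂ := μ.2 - ν.2) hbez hlarge
        (abs_le.2 ⟨by omega, by omega⟩) (abs_le.2 ⟨by omega, by omega⟩) (by linear_combination h)
      exact Prod.ext (by omega) (by omega)
    · obtain ⟨μ, hμ0, hμ⟩ := hS
      have hμ' := Finsupp.mem_support_iff.2 hμ
      refine ⟨μ, hμ', fun h => hμ0 ?_⟩
      have b₁ := abs_le.1 (hbox μ hμ').1
      have b₂ := abs_le.1 (hbox μ hμ').2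
      have := prim_inj (d₁ := μ.1) (d₂ := μ.2) hbez hlarge
        (abs_le.2 ⟨by omega, by omega⟩) (abs_le.2 ⟨by omega, by omega⟩) h
      exact Prod.ext this.1 this.2
    · nlinarith [Nat.zero_le (2 * C * a * (κ + 1) + κ + 1)]
    · have k₁ : l₁.natAbs ≤ T := by
        have : |l₁| ≤ T := by nlinarith [abs_nonneg l₁]
        rw [Int.abs_eq_natAbs] at this
        exact_mod_cast this
      have k₂ : (-l₂).natAbs ≤ T := by
        have : |l₂| ≤ T := by nlinarith [abs_nonneg l₂]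
        rw [Int.abs_eq_natAbs] at this
        rw [Int.natAbs_neg]
        exact_mod_cast this
      calc C * a * ((-l₂).natAbs + l₁.natAbs) ≤ C * a * (2 * ((κ + 1) * Λ)) :=
            Nat.mul_le_mul_left _ (by omega)
        _ = 2 * C * a * (κ + 1) * Λ := by ring
        _ ≤ Y := Nat.mul_le_mul_right _ (by omega)
    · have h3 : Λ ≤ Y := Nat.le_mul_of_pos_left _ (by omega)
      have h4 : 2 ^ Λ ≤ 2 ^ Y := Nat.pow_le_pow_right (by norm_num) h3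
      have h5 : p ≤ a * p := Nat.le_mul_of_pos_left _ ha
      omega
  · push Not at hex
    have := hκ (a * p) τ α β b
      ![fun _ => 0, fun _ => 0, fun γ => -ρ ((α : ZMod a) * γ.1 + (β : ZMod a) * γ.2)] T hN hτ hU
      hb0.ne' ?_ ?_
    · omega
    · intro i γ
      have hpb : (p : ℤ) ≤ |b| := by
        rw [abs_of_pos hb0, hb]; nlinarith [Int.natCast_nonneg p]
      have hap2 : (a : ℤ) * (κ + 1) < p := by exact_mod_cast hap
      fin_cases i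
      · simp
      · simp
      · have := hρ1 ((α : ZMod a) * γ.1 + (β : ZMod a) * γ.2)
        simp only [Fin.reduceFinMk, Matrix.cons_val, abs_neg]
        nlinarith [Int.natCast_nonneg κ, Int.natCast_nonneg a]
    · intro l h1 h2
      have h3 := hR.2.2.1 p 0 hp (α * l.1 + β * l.2)
      simp only [zero_add, pow_one, pow_zero, one_dvd, if_true] at h3
      rw [hR.2.1 a p ha hp.pos hco, hρ, h3]
      by_cases hl : l = 0
      · subst hl
        simp [hb]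
        ring
      · simp [hl, hex l hl h1 h2]

end Pool.Agent.MP_c1891a_nt.H79
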