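import Pool.Agent.MP_c1891a_nt.H79.MainI

/-
Torsion points whose coordinates have orders dividing `a P` and `a Q` with coprime prime powers.
-/

namespace Pool.Agent.MP_c1891a_nt.H79

open Finset Polynomial

/-- reduction to the exact prime power part of the order. -/
theorem exact_pp {a P : ℕ} {x : ℂ} (hP : IsPrimePow P) (hx : x ^ (a * P) = 1) :
    x ^ a = 1 ∨ ∃ p i : ℕ, p.Prime ∧ p ^ (i + 1) ∣ P ∧ x ^ (a * p ^ (i + 1)) = 1 ∧
      x ^ (a * p ^ i) ≠ 1 := by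
  classical
  obtain ⟨p, k, hp, -, rfl⟩ := (isPrimePow_nat_iff _).1 hP
  have hex : ∃ j, x ^ (a * p ^ j) = 1 := ⟨k, hx⟩
  have h1 := Nat.find_spec hex
  have h2 : Nat.find hex ≤ k := Nat.find_min' hex hx
  rcases h : Nat.find hex with _ | i
  · left; rw [h] at h1; simpa using h1
  · right
    rw [h] at h1 h2
    exact ⟨p, i, hp, pow_dvd_pow _ h2, h1, Nat.find_min hex (by omega)⟩

/-- the exponent of a coordinate of exact order. -/
theorem expo {a p i Q : ℕ} {τ : ℂ} {α : ℤ} (ha : 0 < a) (hp : p.Prime)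
    (hco : Nat.Coprime (p ^ (i + 1)) Q) (hτ : IsPrimitiveRoot τ (a * p ^ (i + 1) * Q))
    (h1 : (τ ^ α) ^ (a * p ^ (i + 1)) = 1) (h2 : (τ ^ α) ^ (a * p ^ i) ≠ 1) :
    (Q : ℤ) ∣ α ∧ IsCoprime α ((p ^ (i + 1) : ℕ) : ℤ) := by
  have hne : ((a * p ^ (i + 1) : ℕ) : ℤ) ≠ 0 := by
    have := hp.pos
    positivity
  rw [← zpow_natCast, ← zpow_mul, hτ.zpow_eq_one_iff_dvd, Nat.cast_mul _ Q, mul_comm α] at h1
  have hQ : (Q : ℤ) ∣ α := (mul_dvd_mul_iff_left hne).1 h1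
  refine ⟨hQ, ?_⟩
  push_cast
  refine IsCoprime.pow_right ?_
  refine ((Nat.prime_iff_prime_int.1 hp).irreducible.coprime_iff_not_dvd.2 fun h => h2 ?_).symm
  have hpQ : IsCoprime (p : ℤ) (Q : ℤ) :=
    Nat.isCoprime_iff_coprime.2 ((Nat.coprime_pow_left_iff (by omega) _ _).1 hco)
  obtain ⟨z, hz⟩ := hpQ.mul_dvd h hQ
  rw [← zpow_natCast, ← zpow_mul, hτ.zpow_eq_one_iff_dvd]
  exact ⟨z, by rw [hz]; push_cast; ring⟩

/-- the archimedean step when the first coordinate has small order. -/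
theorem ta_two (hA : STA) (S : AddMonoidAlgebra ℤ (ℤ × ℤ)) (c : ℤ) (hc : 2 ≤ |c|)
    (hS : ∃ μ ∈ S.coeff.support, μ.2 ≠ 0) : ∃ C : ℕ,
      ∀ (a P Q : ℕ) (τ : ℂ) (α β : ℤ) (Y : ℕ), 0 < a → IsPrimePow P → IsPrimePow Q →
        Nat.Coprime (a * P) Q → IsPrimitiveRoot τ (a * P * Q) → (Q : ℤ) ∣ α →
        IsCoprime α (P : ℤ) → IsCoprime β (Q : ℤ) → IsU (1 + c * ev S (τ ^ α) (τ ^ β)) →
        C ≤ P → C * (a * P) ≤ Y → Q ≤ 2 ^ Y → Q ≤ Y ^ 17 := by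
  obtain ⟨Y₀, C, h⟩ := hA S c hc
  obtain ⟨R, hbox⟩ := box S
  refine ⟨Y₀ + C + 4 * R + 1, fun a P Q τ α β Y ha hP hQ hco hτ h1 h2 h3 hU hC hY hQY => ?_⟩
  have hM : 0 < a * P := Nat.mul_pos ha hP.pos
  have key : ∀ s : ℤ, s * s = 1 → (∃ μ ∈ S.coeff.support, 0 < s * μ.2) → Q ≤ Y ^ 17 := by
    intro s hs ⟨μ₀, hμ₀, hpos⟩
    have hs1 : s.natAbs = 1 := by
      have := congrArg Int.natAbs hs
      rw [Int.natAbs_mul] at this
      exact Nat.eq_one_of_mul_eq_one_right this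
    refine h (a * P) Q τ α β (β * s) 0 s Y hM hQ hco hτ
      (h3.mul_left ⟨s, 0, by simpa using hs⟩) (by simpa using h1)
      (by rw [mul_assoc, hs]; simp) hU ?_ ?_ ?_ hQY
    · obtain ⟨μ, hμ, hmax⟩ := Finset.exists_max_image S.coeff.support
        (fun μ : ℤ × ℤ => s * μ.2) ⟨μ₀, hμ₀⟩
      refine ⟨s * μ.2, hpos.trans_le (hmax μ₀ hμ₀), by simpa using hmax, fun ω hω => ?_⟩
      have hω0 : ω ≠ 0 := hω.ne_zero hM.ne'
      have hs0 : s ≠ 0 := by rintro rfl; simp at hs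
      have hfin : (ω ^ α) ^ (a * P) = 1 := by
        rw [← zpow_natCast, ← zpow_mul, mul_comm, zpow_mul, zpow_natCast, hω.pow_eq_one, one_zpow]
      have hd0 : 0 < orderOf (ω ^ α) := (isOfFinOrder_iff_pow_eq_one.2 ⟨_, hM, hfin⟩).orderOf_pos
      have hPd : P ∣ orderOf (ω ^ α) := by
        have h4 := pow_orderOf_eq_one (ω ^ α)
        rw [← zpow_natCast, ← zpow_mul, hω.zpow_eq_one_iff_dvd] at h4
        have h5 : (P : ℤ) ∣ α * (orderOf (ω ^ α) : ℕ) :=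
          (show (P : ℤ) ∣ ((a * P : ℕ) : ℤ) from ⟨a, by push_cast; ring⟩).trans h4
        exact_mod_cast h2.symm.dvd_of_dvd_mul_left h5
      have htot : 2 * R < (orderOf (ω ^ α)).totient := by
        have h4 := Nat.le_of_dvd (Nat.totient_pos.2 hd0) (Nat.totient_dvd_of_dvd hPd)
        have h5 := pp_le hP
        clear h hQY
        omega
      have hsm := small (S.coeff.support.filter fun ν => 0 * ν.1 + s * ν.2 = s * μ.2)
        (fun ν => S.coeff ν) (fun ν => ν.1) R _ (ω ^ α) hd0 (IsPrimitiveRoot.orderOf _) htot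
        (fun ν hν => (hbox ν (Finset.mem_filter.1 hν).1).1) ?_ μ (by simp [Finsupp.mem_support_iff.1 hμ])
        (Finsupp.mem_support_iff.1 hμ)
      · intro h0
        apply hsm
        have h6 : (∑ ν ∈ S.coeff.support with 0 * ν.1 + s * ν.2 = s * μ.2,
            (S.coeff ν : ℂ) * (ω ^ α) ^ ν.1) * ω ^ (β * μ.2) = 0 := by
          rw [← h0, Finset.sum_mul]
          refine Finset.sum_congr rfl fun ν hν => ?_
          have h7 : ν.2 = μ.2 := by simpa [hs0] using (Finset.mem_filter.1 hν).2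
          rw [zpow_add₀ hω0, h7, zpow_mul ω α, mul_assoc]
        exact (mul_eq_zero.1 h6).resolve_right (zpow_ne_zero _ hω0)
      · intro ν hν ν' hν' h6
        have h7 : ν.2 = μ.2 := by simpa [hs0] using (Finset.mem_filter.1 hν).2
        have h8 : ν'.2 = μ.2 := by simpa [hs0] using (Finset.mem_filter.1 hν').2
        exact Prod.ext h6 (h7.trans h8.symm)
    · exact le_trans (by nlinarith [Nat.zero_le (C + 4 * R + 1)]) hY
    · rw [hs1]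
      exact le_trans (by simp; nlinarith [Nat.zero_le (Y₀ + 4 * R + 1)]) hY
  obtain ⟨μ, hμ, hne⟩ := hS
  rcases lt_or_gt_of_ne hne with h' | h'
  · exact key (-1) (by norm_num) ⟨μ, hμ, by linarith⟩
  · exact key 1 (by norm_num) ⟨μ, hμ, by linarith⟩

/-- the case of a polynomial in the first variable only. -/
theorem one_var (hA : STA) (S : AddMonoidAlgebra ℤ (ℤ × ℤ)) (c : ℤ) (hc : 2 ≤ |c|)
    (hS : ∃ μ, μ ≠ 0 ∧ S.coeff μ ≠ 0) (h0 : ∀ μ ∈ S.coeff.support, μ.2 = 0) (a : ℕ)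
    (ha : 0 < a) : ∃ B : ℕ, ∀ P : ℕ, IsPrimePow P → Nat.Coprime a P → ∀ x y : ℂ,
      x ^ (a * P) = 1 → IsU (1 + c * ev S x y) → Rel B x y := by
  obtain ⟨Y₀, C, hY⟩ := ta_inj hA S c hc
  obtain ⟨n₀, hn₀⟩ := grow (a * (Y₀ + C * a + 1)) 17
  refine ⟨n₀ + a, fun P hP hco x y hx hU => ?_⟩
  by_contra hno
  rcases exact_pp hP hx with h | ⟨p, i, hp, hdvd, h1, h2⟩
  · exact hno (rel_left y ha (by omega) h)
  have hN : 0 < a * p ^ (i + 1) := Nat.mul_pos ha (pow_pos hp.pos _)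
  obtain ⟨τ, α, β, hτ, rfl, -⟩ := exp_prim hN h1 (one_pow _)
  have hα := (expo (Q := 1) ha hp (by simp) (by simpa using hτ) h1 h2).2
  have hbig : n₀ ≤ a * p ^ (i + 1) := by
    by_contra h
    exact hno (rel_left y hN (by omega) h1)
  have hev : ev S (τ ^ α) y = ev S (τ ^ α) (τ ^ (0 : ℤ)) :=
    Finset.sum_congr rfl fun μ hμ => by simp [h0 μ hμ]
  rw [hev] at hU
  have hg := hn₀ _ hbig
  rw [mul_assoc, mul_pow] at hg
  have hΛ : a * p ^ (i + 1) < 2 ^ (Nat.log 2 (a * p ^ (i + 1)) + 1) :=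
    Nat.lt_pow_succ_log_self (by norm_num) _
  have hΛ1 : 1 ≤ Nat.log 2 (a * p ^ (i + 1)) + 1 := Nat.le_add_left _ _
  generalize Nat.log 2 (a * p ^ (i + 1)) + 1 = Λ at hg hΛ hΛ1
  refine absurd (Nat.mul_le_mul (Nat.le_self_pow (by norm_num) a) ?_) (not_le.2 hg)
  clear hg
  refine hY a _ τ α 0 α 1 0 _ ha (hp.isPrimePow.pow (by omega)) (hco.coprime_dvd_right hdvd) hτ hα
    (by simp) (by simp) hU ?_ ?_ ?_ ?_ ?_
  · intro μ hμ ν hν h
    exact Prod.ext (by simpa using h) ((h0 μ hμ).trans (h0 ν hν).symm)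
  · obtain ⟨μ, hμ0, hμ⟩ := hS
    have hμ' := Finsupp.mem_support_iff.2 hμ
    exact ⟨μ, hμ', fun h => hμ0 (Prod.ext (by simpa using h) (h0 μ hμ'))⟩
  · nlinarith [Nat.zero_le (C * a + 1)]
  · calc C * a * _ = C * a * 1 := by simp
      _ ≤ (Y₀ + C * a + 1) * Λ := Nat.mul_le_mul (by omega) hΛ1
  · calc p ^ (i + 1) ≤ a * p ^ (i + 1) := Nat.le_mul_of_pos_left _ ha
      _ ≤ 2 ^ Λ := hΛ.le
      _ ≤ _ := Nat.pow_le_pow_right (by norm_num) (Nat.le_mul_of_pos_left _ (by omega))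

/-- the final inequality of the archimedean case. -/
theorem fin_ineq {a C κ P Q Λ T : ℕ} (ha : 0 < a) (hΛ : 1 ≤ Λ) (hT : T ≤ (κ + 1) * Λ)
    (hP : P ≤ T * T) : Q ≤ ((C * a + 1) * ((κ + 1) * Λ * ((κ + 1) * Λ))) ^ 17 →
    a * P * Q ≤ ((C * a + 1) * a * (κ + 1) * Λ) ^ 60 := by
  have h1 : (κ + 1) * Λ ≤ (C * a + 1) * a * (κ + 1) * Λ := by
    rw [mul_assoc]; exact Nat.le_mul_of_pos_left _ (by positivity)
  have h2 : a ≤ (C * a + 1) * a * (κ + 1) * Λ := by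
    calc a = 1 * a * 1 * 1 := by ring
      _ ≤ _ := by gcongr <;> omega
  have h3 : C * a + 1 ≤ (C * a + 1) * a * (κ + 1) * Λ := by
    calc C * a + 1 = (C * a + 1) * 1 * 1 * 1 := by ring
      _ ≤ _ := by gcongr <;> omega
  generalize (C * a + 1) * a * (κ + 1) * Λ = Z at *
  intro hQ
  have h4 : P ≤ Z * Z := hP.trans (Nat.mul_le_mul (hT.trans h1) (hT.trans h1))
  have h5 : Q ≤ (Z * (Z * Z)) ^ 17 := hQ.trans (by gcongr)
  have h6 : 1 ≤ Z := ha.trans_le h2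
  calc a * P * Q ≤ Z * (Z * Z) * (Z * (Z * Z)) ^ 17 := by gcongr
    _ = Z ^ 54 := by ring
    _ ≤ Z ^ 60 := Nat.pow_le_pow_right h6 (by norm_num)

theorem mainII (hA : STA) (hB : STB) (hR : SRam) (S : AddMonoidAlgebra ℤ (ℤ × ℤ))
    (hS : ∃ μ, μ ≠ 0 ∧ S.coeff μ ≠ 0) (hCT : ∃ n, 0 < n ∧ (S ^ n).coeff 0 ≠ 0) (a : ℕ)
    (ha : 0 < a) : ∃ c₀ : ℕ, ∀ c : ℤ, (c₀ : ℤ) ≤ |c| → ∃ B : ℕ, ∀ P Q : ℕ, IsPrimePow P →
      IsPrimePow Q → Nat.Coprime P Q → Nat.Coprime a (P * Q) →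
      ∀ x y : ℂ, x ^ (a * P) = 1 → y ^ (a * Q) = 1 → IsU (1 + c * ev S x y) → Rel B x y := by
  obtain ⟨c₀, hc₀⟩ := hB S hCT a ha
  refine ⟨c₀ + 2, fun c hc => ?_⟩
  push_cast at hc
  have hc2 : 2 ≤ |c| := by linarith [Int.natCast_nonneg c₀]
  by_cases hy0 : ∀ μ ∈ S.coeff.support, μ.2 = 0
  · obtain ⟨B, h⟩ := one_var hA S c hc2 hS hy0 a ha
    exact ⟨B, fun P Q hP _ _ hco x y hx _ hU => h P hP hco.coprime_mul_right_right x y hx hU⟩
  by_cases hx0 : ∀ μ ∈ S.coeff.support, μ.1 = 0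
  · obtain ⟨B, h⟩ := one_var hA (sw S) c hc2 (by
      obtain ⟨μ, h1, h2⟩ := hS
      exact ⟨μ.swap, fun h => h1 (Prod.swap_injective h), by simpa [sw_coeff] using h2⟩)
      (fun μ hμ => hx0 μ.swap (by simpa [sw_coeff] using hμ)) a ha
    exact ⟨B, fun P Q _ hQ _ hco x y _ hy hU =>
      rel_swap (h Q hQ hco.coprime_mul_left_right y x hy (by rwa [ev_sw]))⟩
  push Not at hx0 hy0
  obtain ⟨κ, hκ⟩ := hc₀ c (by linarith)
  obtain ⟨C₁, hC₁⟩ := ta_two hA S c hc2 hy0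
  obtain ⟨C₂, hC₂⟩ := ta_two hA (sw S) c hc2 (by
    obtain ⟨μ, h1, h2⟩ := hx0
    exact ⟨μ.swap, by simpa [sw_coeff] using h1, by simpa using h2⟩)
  obtain ⟨n₀, hn₀⟩ := grow (((C₁ + C₂) * a + 1) * a * (κ + 1)) 60
  obtain ⟨ρ, hρ0, hρ1, hρ⟩ := hR.2.2.2 a ha
  refine ⟨n₀ + a + a * (C₁ + C₂ + 2 * κ * a), fun P Q hP hQ hPQ hco x y hx hy hU => ?_⟩
  by_contra hno
  rcases exact_pp hP hx with h | ⟨p, i, hp, hdp, hx1, hx2⟩
  · exact hno (rel_left y ha (by omega) h)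
  rcases exact_pp hQ hy with h | ⟨q, j, hq, hdq, hy1, hy2⟩
  · exact hno (rel_swap (rel_left x ha (by omega) h))
  have hP' : IsPrimePow (p ^ (i + 1)) := hp.isPrimePow.pow (by omega)
  have hQ' : IsPrimePow (q ^ (j + 1)) := hq.isPrimePow.pow (by omega)
  have c₁ : Nat.Coprime (p ^ (i + 1)) (q ^ (j + 1)) := Nat.Coprime.of_dvd hdp hdq hPQ
  have c₂ : Nat.Coprime a (p ^ (i + 1)) := hco.coprime_mul_right_right.coprime_dvd_right hdp
  have c₃ : Nat.Coprime a (q ^ (j + 1)) := hco.coprime_mul_left_right.coprime_dvd_right hdq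
  have hN : 0 < a * p ^ (i + 1) * q ^ (j + 1) := Nat.mul_pos (Nat.mul_pos ha hP'.pos) hQ'.pos
  have hcomm : a * p ^ (i + 1) * q ^ (j + 1) = a * q ^ (j + 1) * p ^ (i + 1) := by ring
  obtain ⟨τ, α, β, hτ, rfl, rfl⟩ := exp_prim hN (x := x) (y := y)
    (by rw [pow_mul _ (a * _), hx1, one_pow]) (by rw [hcomm, pow_mul _ (a * _), hy1, one_pow])
  obtain ⟨d₁, e₁⟩ := expo ha hp c₁ hτ hx1 hx2
  obtain ⟨d₂, e₂⟩ := expo ha hq c₁.symm (hcomm ▸ hτ) hy1 hy2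
  clear hx2 hy2 hdp hdq
  generalize p ^ (i + 1) = P' at *
  generalize q ^ (j + 1) = Q' at *
  have b₁ : n₀ + a + a * (C₁ + C₂ + 2 * κ * a) < a * P' := by
    by_contra h
    exact hno (rel_left _ (Nat.mul_pos ha hP'.pos) (not_lt.1 h) hx1)
  have b₂ : n₀ + a + a * (C₁ + C₂ + 2 * κ * a) < a * Q' := by
    by_contra h
    exact hno (rel_swap (rel_left _ (Nat.mul_pos ha hQ'.pos) (not_lt.1 h) hy1))
  have b₃ : C₁ + C₂ + 2 * κ * a < P' := lt_of_mul_lt_mul_left (a := a) (by omega) (Nat.zero_le _)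
  have b₄ : C₁ + C₂ + 2 * κ * a < Q' := lt_of_mul_lt_mul_left (a := a) (by omega) (Nat.zero_le _)
  have b₅ : n₀ ≤ a * P' * Q' := le_trans (by omega) (Nat.le_mul_of_pos_right _ hQ'.pos)
  obtain ⟨B₁, ε₁, f₁, f₂, f₃, f₄⟩ := ram_pp hR hP'
  obtain ⟨B₂, ε₂, g₁, g₂, g₃, g₄⟩ := ram_pp hR hQ'
  have hP0 : (0 : ℤ) < P' := by exact_mod_cast hP'.pos
  have hQ0 : (0 : ℤ) < Q' := by exact_mod_cast hQ'.pos
  have hB₁ : 0 < B₁ := by linarith
  have hB₂ : 0 < B₂ := by linarith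
  set b : ℤ := ρ 0 * B₁ * B₂ with hb
  have hb0 : 0 < b := by positivity
  have hb1 : b.natAbs ≤ a * P' * Q' := by
    have h1 := (le_abs_self _).trans (hρ1 0)
    have : b ≤ (a * P' * Q' : ℕ) := by push_cast; rw [hb]; gcongr
    omega
  have hΛ2 : a * P' * Q' < 2 ^ (Nat.log 2 (a * P' * Q') + 1) :=
    Nat.lt_pow_succ_log_self (by norm_num) _
  have hlog : Nat.log 2 b.natAbs + 1 ≤ Nat.log 2 (a * P' * Q') + 1 :=
    Nat.succ_le_succ (Nat.log_mono_right hb1)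
  have hΛ1 : 1 ≤ Nat.log 2 (a * P' * Q') + 1 := Nat.le_add_left _ _
  have hg : ∀ N, N = a * P' * Q' → N ≤ (((C₁ + C₂) * a + 1) * a * (κ + 1) *
      (Nat.log 2 (a * P' * Q') + 1)) ^ 60 → False := by
    rintro N rfl
    exact not_le.2 (hn₀ _ b₅)
  generalize Nat.log 2 (a * P' * Q') + 1 = Λ at hg hΛ2 hlog hΛ1
  set T := κ * (Nat.log 2 b.natAbs + 1) + 1 with hT
  have hTΛ : T ≤ (κ + 1) * Λ := by
    have h2 : κ * (Nat.log 2 b.natAbs + 1) ≤ κ * Λ := Nat.mul_le_mul_left _ hlog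
    clear hg
    nlinarith
  have hΛY : 2 ^ Λ ≤ 2 ^ (((C₁ + C₂) * a + 1) * ((κ + 1) * Λ * ((κ + 1) * Λ))) := by
    refine Nat.pow_le_pow_right (by norm_num) ?_
    calc Λ = 1 * (1 * Λ * (1 * 1)) := by ring
      _ ≤ _ := by gcongr <;> omega
  have hTT := Nat.mul_le_mul hTΛ hTΛ
  by_cases k₁ : P' ≤ T * T
  · refine hg _ rfl (fin_ineq ha hΛ1 hTΛ k₁ ?_)
    clear hg
    refine hC₁ a P' Q' τ α β _ ha hP' hQ' (Nat.Coprime.mul_left c₃ c₁) hτ d₁ e₁ e₂ hU (by omega)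
      ?_ (le_trans (le_trans (Nat.le_mul_of_pos_left _ (Nat.mul_pos ha hP'.pos)) hΛ2.le) hΛY)
    rw [← mul_assoc]
    exact Nat.mul_le_mul (by nlinarith [Nat.zero_le (C₂ * a)]) (k₁.trans hTT)
  by_cases k₂ : Q' ≤ T * T
  · rw [hcomm] at hΛ2 hτ
    refine hg _ hcomm.symm (fin_ineq ha hΛ1 hTΛ k₂ ?_)
    clear hg
    refine hC₂ a Q' P' τ β α _ ha hQ' hP' (Nat.Coprime.mul_left c₂ c₁.symm) hτ d₂ e₂ e₁
      (by rwa [ev_sw]) (by omega)
      ?_ (le_trans (le_trans (Nat.le_mul_of_pos_left _ (Nat.mul_pos ha hQ'.pos)) hΛ2.le) hΛY)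
    rw [← mul_assoc]
    exact Nat.mul_le_mul (by nlinarith [Nat.zero_le (C₁ * a)]) (k₂.trans hTT)
  clear hg
  have b₃' : 2 * (κ : ℤ) * a < P' := by exact_mod_cast (by omega : 2 * κ * a < P')
  have b₄' : 2 * (κ : ℤ) * a < Q' := by exact_mod_cast (by omega : 2 * κ * a < Q')
  have := hκ (a * P' * Q') τ α β b
    ![fun γ => ρ ((α : ZMod a) * γ.1 + (β : ZMod a) * γ.2) * B₁ * ε₂,
      fun γ => ρ ((α : ZMod a) * γ.1 + (β : ZMod a) * γ.2) * ε₁ * B₂,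
      fun γ => ρ ((α : ZMod a) * γ.1 + (β : ZMod a) * γ.2) * ε₁ * ε₂] T hN hτ hU hb0.ne' ?_ ?_
  · omega
  · intro i γ
    have h0 := hρ1 ((α : ZMod a) * γ.1 + (β : ZMod a) * γ.2)
    have h1 : B₁ * B₂ ≤ |b| := by
      rw [abs_of_pos hb0, hb, mul_assoc]
      exact le_mul_of_one_le_left (by positivity) hρ0
    have hκ0 : (0 : ℤ) ≤ κ := Int.natCast_nonneg κ
    have m₁ : (κ : ℤ) * a ≤ B₁ := by linarith
    have m₂ : (κ : ℤ) * a ≤ B₂ := by linarith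
    refine le_trans ?_ h1
    fin_cases i <;>
      simp only [Fin.reduceFinMk, Fin.zero_eta, Fin.mk_one, Matrix.cons_val, abs_mul,
        abs_of_pos hB₁, abs_of_pos hB₂]
    · calc _ ≤ (κ : ℤ) * (a * B₁ * 1) := by gcongr
        _ = B₁ * (κ * a) := by ring
        _ ≤ _ := by gcongr
    · calc _ ≤ (κ : ℤ) * (a * 1 * B₂) := by gcongr
        _ = (κ * a) * B₂ := by ring
        _ ≤ _ := by gcongr
    · calc _ ≤ (κ : ℤ) * (a * 1 * 1) := by gcongr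
        _ = (κ * a) * 1 := by ring
        _ ≤ _ := by gcongr; exact hB₂
  · intro l h1 h2
    rw [hR.2.1 _ _ (Nat.mul_pos ha hP'.pos) hQ'.pos (Nat.Coprime.mul_left c₃ c₁),
      hR.2.1 _ _ ha hP'.pos c₂, hρ,
      f₄ T α _ l.1 (not_le.1 k₁) e₁ h1 (by simpa using d₂.mul_right _),
      g₄ T β _ l.2 (not_le.1 k₂) e₂ h2 (by simpa using d₁.mul_right _)]
    obtain ⟨l₁, l₂⟩ := l
    by_cases z₁ : l₁ = 0 <;> by_cases z₂ : l₂ = 0 <;> simp [z₁, z₂, hb] <;> ring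

end Pool.Agent.MP_c1891a_nt.H79
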